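import Pool.Agent.H58.MK.Conv

/-!
# `(m,k)`-perfect numbers with a bounded number of prime factors and Mersenne primes
-/

set_option autoImplicit false

namespace Pool.Agent.Results.MP_83fa19_nt.MersenneFamilies

open Pool.Agent.H58

/-- The positive integers `n` which divide the `m`-th iterate of the sum of divisors at `n`, such
that each of the iterates number `0, ..., m - 1` at `n` has at most `K` distinct prime factors. -/
def Cls (m K : ℕ) : Set ℕ :=
  {n | 0 < n ∧ n ∣ (⇑(ArithmeticFunction.sigma 1))^[m] n ∧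
    ∀ j < m, ((⇑(ArithmeticFunction.sigma 1))^[j] n).primeFactors.card ≤ K}

/-- The odd part. -/
def oddPart (x : ℕ) : ℕ := x / 2 ^ x.factorization 2

/-- `W 0 = w`; `W (j + 1)` is the sum of divisors of `W j` if `m` and `j` are even, and the odd part
of the sum of divisors of `W j` otherwise. -/
def W (m w : ℕ) : ℕ → ℕ
  | 0 => w
  | j + 1 => if Even m ∧ Even j then ArithmeticFunction.sigma 1 (W m w j)
      else oddPart (ArithmeticFunction.sigma 1 (W m w j))

/-- `D 0 = 0`; `D (t + 1) = D t + 1 + v`, where `2 ^ v` exactly divides the sum of divisors of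
`W ((2 t + 1) mod m)`. -/
def D (m w : ℕ) : ℕ → ℕ
  | 0 => 0
  | t + 1 => D m w t + 1 +
      (ArithmeticFunction.sigma 1 (W m w ((2 * t + 1) % m))).factorization 2

/-- The number of Mersenne primes in a family: `m / 2` for even `m`, and `m` for odd `m`. -/
def cnt (m : ℕ) : ℕ := if Even m then m / 2 else m

/-- All the numbers `2 ^ (l + D t) - 1`, `t < cnt m`, are primes. -/
def Mers (m w l : ℕ) : Prop := ∀ t < cnt m, (2 ^ (l + D m w t) - 1).Prime

/-- The member number `l` of the family of `w`: `2 ^ (l - 1) * w` for even `m`, and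
`2 ^ (l - 1) * P * w` with the Mersenne prime `P = 2 ^ (l + D ((m - 1) / 2)) - 1` for odd `m`. -/
def member (m w l : ℕ) : ℕ :=
  2 ^ (l - 1) * (if Even m then 1 else 2 ^ (l + D m w ((m - 1) / 2)) - 1) * w

lemma W_eq (m w j : ℕ) : W m w j = MK.Wv m w j := by
  induction j with
  | zero => rfl
  | succ j ih =>
    rw [W, MK.Wv, ih]
    rfl

lemma cnt_eq (m : ℕ) : cnt m = MK.rr m := rfl

lemma idx_eq {m t : ℕ} (h : t + 1 < MK.rr m) : MK.nx m (MK.lam m t) = (2 * t + 1) % m := by
  have h0 := MK.rr_cases m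
  by_cases h1 : 2 * t < m
  · have e1 : MK.lam m t = 2 * t := by
      unfold MK.lam
      rw [if_pos h1]
    rw [e1]
    by_cases h2 : 2 * t + 1 < m
    · have e2 : MK.nx m (2 * t) = 2 * t + 1 := by
        unfold MK.nx
        rw [if_pos h2]
      rw [e2, Nat.mod_eq_of_lt h2]
    · have e2 : MK.nx m (2 * t) = 0 := by
        unfold MK.nx
        rw [if_neg h2]
      have e3 : 2 * t + 1 = m := by omega
      rw [e2, e3, Nat.mod_self]
  · have e1 : MK.lam m t = 2 * t - m := by
      unfold MK.lam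
      rw [if_neg h1]
    have e2 : MK.nx m (2 * t - m) = 2 * t - m + 1 := by
      unfold MK.nx
      rw [if_pos (by omega)]
    rw [e1, e2, Nat.mod_eq_sub_mod (by omega), Nat.mod_eq_of_lt (by omega)]
    omega

lemma D_eq {m w t : ℕ} (h : t < MK.rr m) : D m w t = MK.Dv m w t := by
  induction t with
  | zero => rfl
  | succ t ih =>
    rw [D, MK.Dv, ih (by omega), idx_eq h, W_eq]

lemma fam_iff {m : ℕ} (hm : 1 ≤ m) (w l n : ℕ) :
    MK.Fam m w l n ↔ Mers m w l ∧ n = member m w l := by
  have h1 : (∀ t < MK.rr m, (2 ^ (l + MK.Dv m w t) - 1).Prime) ↔ Mers m w l := by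
    constructor
    · intro h t ht
      rw [D_eq ht]
      exact h t ht
    · intro h t ht
      have := h t ht
      rwa [D_eq ht] at this
  have h2 : 2 ^ (l - 1) * (if Even m then 1 else 2 ^ (l + MK.Dv m w ((m - 1) / 2)) - 1) * w =
      member m w l := by
    unfold member
    by_cases hme : Even m
    · rw [if_pos hme, if_pos hme]
    · rw [if_neg hme, if_neg hme, D_eq]
      have := MK.rr_cases m
      have := Nat.odd_iff.1 (Nat.not_even_iff_odd.1 hme)
      omega
  rw [MK.Fam, h1, h2]

/-- Let `m ≥ 1`. For every `K`, all but finitely many elements of `Cls m K` belong to finitely many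
families; each family consists of elements of some `Cls m K`, up to finitely many members. Hence
`Cls m K` is infinite for some `K` if and only if for some odd `w` dividing `W m` there are
infinitely many `l` such that all the numbers `2 ^ (l + D t) - 1` are primes. For `m ≤ 2` this means
that there are infinitely many Mersenne primes; for `m ≥ 3` it requires infinitely many pairs of
Mersenne primes with exponents at a fixed distance. For all `m`, `K`, `E` only finitely many
elements of `Cls m K` are not divisible by `2 ^ E`. -/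
theorem result (m : ℕ) (hm : 1 ≤ m) :
    (∀ K : ℕ, ∃ B : ℕ, ∀ n ∈ Cls m K, B < n → ∃ w ≤ B, ∃ l : ℕ, Odd w ∧ w ∣ W m w m ∧
      Mers m w l ∧ n = member m w l) ∧
    (∀ w : ℕ, Odd w → w ∣ W m w m → ∃ B K : ℕ, ∀ l : ℕ, B < l → Mers m w l →
      member m w l ∈ Cls m K) ∧
    ((∃ K : ℕ, (Cls m K).Infinite) ↔
      ∃ w : ℕ, Odd w ∧ w ∣ W m w m ∧ {l : ℕ | Mers m w l}.Infinite) ∧
    (m ≤ 2 → ((∃ K : ℕ, (Cls m K).Infinite) ↔ {l : ℕ | (2 ^ l - 1).Prime}.Infinite)) ∧
    (3 ≤ m → (∃ K : ℕ, (Cls m K).Infinite) →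
      ∃ d ≥ 1, {l : ℕ | (2 ^ l - 1).Prime ∧ (2 ^ (l + d) - 1).Prime}.Infinite) ∧
    (∀ K E : ℕ, {n ∈ Cls m K | ¬ 2 ^ E ∣ n}.Finite) := by
  refine ⟨?_, ?_, ?_, ?_, ?_, ?_⟩
  · intro K
    obtain ⟨B, hB⟩ := MK.classify m K hm
    refine ⟨B, fun n hn hlt => ?_⟩
    obtain ⟨l, w, h1, h2, h3, h4⟩ := hB n hn hlt
    have h5 := (fam_iff hm w l n).1 h4
    exact ⟨w, h1, l, h2, by rw [W_eq]; exact h3, h5.1, h5.2⟩
  · intro w hw hd
    rw [W_eq] at hd
    obtain ⟨B, K, hBK⟩ := MK.converse hm hw hd
    exact ⟨B, K, fun l hl h => hBK l _ hl ((fam_iff hm w l _).2 ⟨h, rfl⟩)⟩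
  · have h1 := MK.class_iff hm
    have h2 : ∀ w : ℕ, {l : ℕ | ∀ t < MK.rr m, (2 ^ (l + MK.Dv m w t) - 1).Prime} =
        {l : ℕ | Mers m w l} := by
      intro w
      ext l
      constructor
      · intro h t ht
        rw [D_eq ht]
        exact h t ht
      · intro h t ht
        have := h t ht
        rwa [D_eq ht] at this
    simp only [h2, ← W_eq] at h1
    exact h1
  · intro h2
    have h3 : m = 1 ∨ m = 2 := by omega
    rcases h3 with h3 | h3
    · subst h3
      exact MK.iff_one
    · subst h3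
      exact MK.iff_two
  · rintro h3 ⟨K, hK⟩
    exact MK.pairs m K h3 hK
  · intro K E
    exact MK.finite_two m K E hm

end Pool.Agent.Results.MP_83fa19_nt.MersenneFamilies
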