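import Pool.Agent.H38.MKP.Final

/-!
# Large common divisors with iterates of the sum of divisors are rare
-/

set_option autoImplicit false

namespace Pool.Agent.Results.MP_83fa19_nt.Sparsity

/-- Tail of the distribution of the greatest common divisor of `n` and the `m`-th iterate of the sum
of divisors at `n`. -/
theorem result (m : ℕ) (hm : 1 ≤ m) : ∃ C : ℝ, 0 < C ∧ ∀ N k : ℕ, 1 ≤ k →
    (((Finset.Icc 1 N).filter fun n =>
      Real.exp (C * (k : ℝ) ^ (2 ^ (m - 1) + 1)) <
        (Nat.gcd n ((⇑(ArithmeticFunction.sigma 1))^[m] n) : ℝ)).card : ℝ)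
      ≤ C * N * (1 + Real.log N) ^ (2 * m + 2) / 2 ^ k :=
  Pool.MKP.gcd_tail m hm

end Pool.Agent.Results.MP_83fa19_nt.Sparsity
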