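import Pool.Agent.H38.PWS.Wirsing

/-!
# Few numbers divide an iterate of their sum of divisors
-/

set_option autoImplicit false

namespace Pool.Agent.Results.MP_83fa19_nt.WirsingBound

/-- The bound of Wirsing for all iterates `σ^m` of the sum of divisors: few `n` up to `N` divide
`h * σ^m n`, uniformly in `h` up to `N`.  For `h = 1` these are the `(m,k)`-perfect numbers. -/
theorem result (m : ℕ) (hm : 1 ≤ m) : ∃ C : ℝ, 0 < C ∧ ∀ N h : ℕ, 3 ≤ N → 1 ≤ h → h ≤ N →
    (((Finset.Icc 1 N).filter fun n =>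
      n ∣ h * (⇑(ArithmeticFunction.sigma 1))^[m] n).card : ℝ)
      ≤ Real.exp (C * (Real.log N / Real.log (Real.log N))) :=
  Pool.PWS.wirsing m hm

end Pool.Agent.Results.MP_83fa19_nt.WirsingBound
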